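import Mathlib

/-!
# MP_20ddb5_an, note 1871 section 3, (L2) on a forest of `K0` binary trees with 5-level look-back

`f l k`: the mean on the cell `k` of level `l`.  Marked cells `(l, k)` have a reference cell, the
ancestor `up l k` levels above; the reference cell is at most 5 levels above every marked cell
strictly containing `(l, k)`.
-/

set_option autoImplicit false

namespace Pool.Agent.H5.GSC

/-- the sum of `c` over the first `d` levels of the tree under the cell `(l, k)` -/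
noncomputable def tsm (c : ℕ → ℕ → ℝ) : ℕ → ℕ → ℕ → ℝ
  | 0, _, _ => 0
  | d + 1, l, k => c l k + (tsm c d (l + 1) (2 * k) + tsm c d (l + 1) (2 * k + 1))

theorem tree_sum_two (g : ℕ → ℝ) (N : ℕ) :
    ∑ k ∈ Finset.range (2 * N), g k = ∑ k ∈ Finset.range N, (g (2 * k) + g (2 * k + 1)) := by
  induction N with
  | zero => simp
  | succ N ih =>
    rw [show 2 * (N + 1) = (2 * N + 1) + 1 by ring, Finset.sum_range_succ, Finset.sum_range_succ,
      ih, Finset.sum_range_succ]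
    ring

theorem tree_tsm (c : ℕ → ℕ → ℝ) : ∀ (d l N : ℕ),
    ∑ i ∈ Finset.range d, ∑ k ∈ Finset.range (N * 2 ^ i), c (l + i) k =
      ∑ k ∈ Finset.range N, tsm c d l k := by
  intro d
  induction d with
  | zero => intro l N; simp [tsm]
  | succ d ih =>
    intro l N
    rw [Finset.sum_range_succ']
    have h1 := ih (l + 1) (2 * N)
    rw [tree_sum_two] at h1
    have h2 : ∑ k ∈ Finset.range N, tsm c (d + 1) l k = ∑ k ∈ Finset.range N, c l k +
        ∑ k ∈ Finset.range N, (tsm c d (l + 1) (2 * k) + tsm c d (l + 1) (2 * k + 1)) := by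
      rw [← Finset.sum_add_distrib]
      rfl
    rw [h2, ← h1, pow_zero, mul_one, add_zero, add_comm]
    congr 1
    refine Finset.sum_congr rfl fun i _ => ?_
    rw [show N * 2 ^ (i + 1) = 2 * N * 2 ^ i by ring, show l + (i + 1) = l + 1 + i by ring]

theorem tree_tsm_mono {c c' : ℕ → ℕ → ℝ} (h : ∀ l k, c l k ≤ c' l k) : ∀ d l k,
    tsm c d l k ≤ tsm c' d l k := by
  intro d
  induction d with
  | zero => intro l k; exact le_refl _
  | succ d ih =>
    intro l k
    exact add_le_add (h l k) (add_le_add (ih _ _) (ih _ _))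

/-- the algebraic step -/
theorem tree_mono {q R x M M' : ℝ} (h2 : M' = max M |x - R|) :
    4 * (q - 2 * R * x + R ^ 2) + 2 * M' ^ 2 - 4 * M' * |x - R| ≤
      4 * (q - 2 * R * x + R ^ 2) + 2 * M ^ 2 - 4 * M * |x - R| := by
  rcases le_total M |x - R| with h | h
  · rw [max_eq_right h] at h2
    subst h2
    nlinarith [sq_nonneg (M - |x - R|)]
  · rw [max_eq_left h] at h2
    subst h2
    exact le_refl _

/-- top-down Bellman induction -/
theorem tree_bell (f q : ℕ → ℕ → ℝ)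
    (hf : ∀ l k, f l k = (f (l + 1) (2 * k) + f (l + 1) (2 * k + 1)) / 2)
    (hq : ∀ l k, q l k = (q (l + 1) (2 * k) + q (l + 1) (2 * k + 1)) / 2)
    (hfq : ∀ l k, f l k ^ 2 ≤ q l k)
    (mk : ℕ → ℕ → Prop) [∀ l k, Decidable (mk l k)] (up : ℕ → ℕ → ℕ)
    (hup : ∀ l k, mk l k → up l k ≤ l)
    (hnest : ∀ l k l', mk l k → l' < l → mk l' (k / 2 ^ (l - l')) → l' + up l k ≤ l + 5)
    (Mx : ℕ → ℕ → ℝ) (hMx0 : ∀ l k, 0 ≤ Mx l k)
    (hMx : ∀ l k s, s ≤ 5 → s ≤ l → |f (l - s) (k / 2 ^ s) - f l k| ≤ Mx l k) :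
    ∀ (d l k : ℕ) (R M : ℝ), |f l k - R| ≤ M →
    (∀ i k', k' / 2 ^ i = k → mk (l + i) k' →
      (∀ i' < i, ¬ mk (l + i') (k' / 2 ^ (i - i'))) → l + i - up (l + i) k' < l →
      |f (l + i - up (l + i) k') (k' / 2 ^ (up (l + i) k')) - R| ≤ M) →
    tsm (fun l k => if mk l k then (1 / 2 : ℝ) ^ l *
        (f l k - f (l - up l k) (k / 2 ^ (up l k))) ^ 2 else 0) d l k ≤
      4 * ((1 / 2 : ℝ) ^ l * (4 * (q l k - 2 * R * f l k + R ^ 2) + 2 * M ^ 2
        - 4 * M * |f l k - R|)) +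
      tsm (fun l k => if mk l k then 8 * ((1 / 2 : ℝ) ^ l * Mx l k ^ 2) else 0) d l k := by
  intro d
  induction d with
  | zero =>
    intro l k R M hM _
    have h2 : (f l k - R) ^ 2 = |f l k - R| ^ 2 := (sq_abs _).symm
    have h3 : 0 ≤ (1 / 2 : ℝ) ^ l := by positivity
    have h5 := hfq l k
    have h4 : 0 ≤ 4 * (q l k - 2 * R * f l k + R ^ 2) + 2 * M ^ 2 - 4 * M * |f l k - R| := by
      nlinarith [sq_nonneg (2 * |f l k - R| - M), sq_nonneg M]
    have h6 : 0 ≤ 4 * ((1 / 2 : ℝ) ^ l * (4 * (q l k - 2 * R * f l k + R ^ 2) + 2 * M ^ 2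
        - 4 * M * |f l k - R|)) := by positivity
    simpa [tsm] using h6
  | succ d ih =>
    intro l k R M hM hH
    have hM0 : 0 ≤ M := le_trans (abs_nonneg _) hM
    -- the two children with the state `(R', M')`
    have key : ∀ (R' M' : ℝ), 0 ≤ M' →
        (∀ i k', k' / 2 ^ (i + 1) = k → mk (l + (i + 1)) k' →
          (∀ i' < i, ¬ mk (l + (i' + 1)) (k' / 2 ^ (i - i'))) →
          l + (i + 1) - up (l + (i + 1)) k' < l + 1 →
          |f (l + (i + 1) - up (l + (i + 1)) k') (k' / 2 ^ (up (l + (i + 1)) k')) - R'| ≤ M') →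
        tsm (fun l k => if mk l k then (1 / 2 : ℝ) ^ l *
            (f l k - f (l - up l k) (k / 2 ^ (up l k))) ^ 2 else 0) d (l + 1) (2 * k) +
          tsm (fun l k => if mk l k then (1 / 2 : ℝ) ^ l *
            (f l k - f (l - up l k) (k / 2 ^ (up l k))) ^ 2 else 0) d (l + 1) (2 * k + 1) ≤
        4 * ((1 / 2 : ℝ) ^ l * (4 * (q l k - 2 * R' * f l k + R' ^ 2) + 2 * M' ^ 2
          - 4 * M' * |f l k - R'|)) +
        (tsm (fun l k => if mk l k then 8 * ((1 / 2 : ℝ) ^ l * Mx l k ^ 2) else 0)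
            d (l + 1) (2 * k) +
          tsm (fun l k => if mk l k then 8 * ((1 / 2 : ℝ) ^ l * Mx l k ^ 2) else 0)
            d (l + 1) (2 * k + 1)) := by
      intro R' M' hM'n hH'
      have part : ∀ K : ℕ, K / 2 = k →
          tsm (fun l k => if mk l k then (1 / 2 : ℝ) ^ l *
            (f l k - f (l - up l k) (k / 2 ^ (up l k))) ^ 2 else 0) d (l + 1) K ≤
          4 * ((1 / 2 : ℝ) ^ (l + 1) * (4 * (q (l + 1) K - 2 * R' * f (l + 1) K + R' ^ 2)
            + 2 * M' ^ 2 - 4 * M' * |f (l + 1) K - R'|)) +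
          tsm (fun l k => if mk l k then 8 * ((1 / 2 : ℝ) ^ l * Mx l k ^ 2) else 0)
            d (l + 1) K := by
        intro K hK
        have h1 := ih (l + 1) K R' (max M' |f (l + 1) K - R'|) (le_max_right _ _) ?_
        · refine h1.trans ?_
          have h2 := tree_mono (q := q (l + 1) K) (R := R') (x := f (l + 1) K) (M := M')
            (M' := max M' |f (l + 1) K - R'|) rfl
          have h3 : 0 ≤ (1 / 2 : ℝ) ^ (l + 1) := by positivity
          have h4 := mul_le_mul_of_nonneg_left h2 h3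
          linarith
        · intro i k' h2 h3 h4 h5
          have e1 : l + 1 + i = l + (i + 1) := by ring
          rw [e1] at h3 h5 ⊢
          refine (hH' i k' ?_ h3 ?_ h5).trans (le_max_left _ _)
          · rw [pow_succ, ← Nat.div_div_eq_div_mul, h2, hK]
          · intro i' hi'
            have h6 := h4 i' hi'
            rwa [show l + 1 + i' = l + (i' + 1) by ring] at h6
      have h1 := part (2 * k) (by omega)
      have h2 := part (2 * k + 1) (by omega)
      refine (add_le_add h1 h2).trans ?_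
      have h3 : |f l k - R'| ≤ (|f (l + 1) (2 * k) - R'| + |f (l + 1) (2 * k + 1) - R'|) / 2 := by
        have h4 : f l k - R' = ((f (l + 1) (2 * k) - R') + (f (l + 1) (2 * k + 1) - R')) / 2 := by
          rw [hf l k]; ring
        rw [h4, abs_div, abs_of_pos (by norm_num : (0 : ℝ) < 2)]
        exact div_le_div_of_nonneg_right (abs_add_le _ _) (by norm_num)
      have h5 : (1 / 2 : ℝ) ^ (l + 1) = (1 / 2 : ℝ) ^ l / 2 := by rw [pow_succ]; ring
      have h6 : 0 ≤ (1 / 2 : ℝ) ^ l := by positivity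
      rw [h5]
      have h8 : 0 ≤ M' * ((|f (l + 1) (2 * k) - R'| + |f (l + 1) (2 * k + 1) - R'|) / 2
          - |f l k - R'|) := mul_nonneg hM'n (by linarith)
      have h9 := mul_nonneg h6 h8
      have h10 : 4 * ((1 / 2 : ℝ) ^ l / 2 * (4 * (q (l + 1) (2 * k) -
              2 * R' * f (l + 1) (2 * k) + R' ^ 2)
            + 2 * M' ^ 2 - 4 * M' * |f (l + 1) (2 * k) - R'|)) +
          4 * ((1 / 2 : ℝ) ^ l / 2 * (4 * (q (l + 1) (2 * k + 1) -
              2 * R' * f (l + 1) (2 * k + 1) + R' ^ 2)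
            + 2 * M' ^ 2 - 4 * M' * |f (l + 1) (2 * k + 1) - R'|)) =
          4 * ((1 / 2 : ℝ) ^ l * (4 * (q l k - 2 * R' * f l k + R' ^ 2) + 2 * M' ^ 2
            - 4 * M' * |f l k - R'|)) - 16 * ((1 / 2 : ℝ) ^ l * (M' *
            ((|f (l + 1) (2 * k) - R'| + |f (l + 1) (2 * k + 1) - R'|) / 2 - |f l k - R'|))) := by
        rw [hf l k, hq l k]; ring
      linarith
    by_cases hmk : mk l k
    · have h1 := key (f l k) (Mx l k) (hMx0 l k) ?_
      · show (if mk l k then (1 / 2 : ℝ) ^ l *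
            (f l k - f (l - up l k) (k / 2 ^ (up l k))) ^ 2 else 0) + _ ≤ _ +
          ((if mk l k then 8 * ((1 / 2 : ℝ) ^ l * Mx l k ^ 2) else 0) + _)
        rw [if_pos hmk, if_pos hmk]
        have h2 : |f l k - f (l - up l k) (k / 2 ^ (up l k))| ≤ 2 * M := by
          have h3 : |f (l - up l k) (k / 2 ^ (up l k)) - R| ≤ M := by
            rcases Nat.eq_zero_or_pos (up l k) with h3 | h3
            · rw [h3]; simpa using hM
            · have h4 := hH 0 k (by simp) hmk (fun i' hi' => absurd hi' (Nat.not_lt_zero _))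
                (by have := hup l k hmk; simp only [add_zero]; omega)
              simpa using h4
          have h6 : f l k - f (l - up l k) (k / 2 ^ (up l k)) =
            (f l k - R) - (f (l - up l k) (k / 2 ^ (up l k)) - R) := by ring
          rw [h6]
          refine (abs_sub _ _).trans ?_
          linarith
        have h3 : (f l k - f (l - up l k) (k / 2 ^ (up l k))) ^ 2 ≤ 4 * M ^ 2 := by
          rw [← sq_abs]
          nlinarith [abs_nonneg (f l k - f (l - up l k) (k / 2 ^ (up l k)))]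
        have h4 : 0 ≤ (1 / 2 : ℝ) ^ l := by positivity
        have h5 := mul_le_mul_of_nonneg_left h3 h4
        have h7 : 0 ≤ (2 * |f l k - R| - M) ^ 2 := sq_nonneg _
        have h8 := mul_nonneg h4 h7
        have h9 : 4 * ((1 / 2 : ℝ) ^ l * (4 * (q l k - 2 * R * f l k + R ^ 2) + 2 * M ^ 2
            - 4 * M * |f l k - R|)) =
            4 * ((1 / 2 : ℝ) ^ l * (4 * (q l k - f l k ^ 2) + 4 * (f l k - R) ^ 2 + 2 * M ^ 2
            - 4 * M * |f l k - R|)) := by ring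
        have h10 : (f l k - R) ^ 2 = |f l k - R| ^ 2 := (sq_abs _).symm
        rw [sub_self, abs_zero] at h1
        rw [h9, h10]
        have h11 : 4 * ((1 / 2 : ℝ) ^ l * (4 * (q l k - 2 * f l k * f l k + f l k ^ 2)
            + 2 * Mx l k ^ 2 - 4 * Mx l k * 0)) =
            4 * ((1 / 2 : ℝ) ^ l * (4 * (q l k - f l k ^ 2))) +
              8 * ((1 / 2 : ℝ) ^ l * Mx l k ^ 2) := by ring
        have h12 : 4 * ((1 / 2 : ℝ) ^ l * (4 * (q l k - f l k ^ 2) + 4 * |f l k - R| ^ 2 + 2 * M ^ 2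
            - 4 * M * |f l k - R|)) = 4 * ((1 / 2 : ℝ) ^ l * (4 * (q l k - f l k ^ 2))) +
            (1 / 2 : ℝ) ^ l * (4 * M ^ 2) +
            4 * ((1 / 2 : ℝ) ^ l * (2 * |f l k - R| - M) ^ 2) := by ring
        rw [h12]
        rw [h11] at h1
        linarith
      · intro i k' h2 h3 h4 h5
        obtain ⟨s, hs⟩ : ∃ s, s = l - (l + (i + 1) - up (l + (i + 1)) k') := ⟨_, rfl⟩
        have h6 := hnest (l + (i + 1)) k' l h3 (by omega)
          (by rw [show l + (i + 1) - l = i + 1 by omega, h2]; exact hmk)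
        have h7 := hup (l + (i + 1)) k' h3
        have h8 := hMx l k s (by omega) (by omega)
        have h9 : l - s = l + (i + 1) - up (l + (i + 1)) k' := by omega
        have h10 : k / 2 ^ s = k' / 2 ^ (up (l + (i + 1)) k') := by
          rw [← h2, Nat.div_div_eq_div_mul, ← pow_add]
          congr 2
          omega
        rw [h9, h10] at h8
        exact h8
    · have h1 := key R M hM0 ?_
      · show (if mk l k then (1 / 2 : ℝ) ^ l *
            (f l k - f (l - up l k) (k / 2 ^ (up l k))) ^ 2 else 0) + _ ≤ _ +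
          ((if mk l k then 8 * ((1 / 2 : ℝ) ^ l * Mx l k ^ 2) else 0) + _)
        rw [if_neg hmk, if_neg hmk, zero_add, zero_add]
        exact h1
      · intro i k' h2 h3 h4 h5
        rcases Nat.lt_or_ge (l + (i + 1) - up (l + (i + 1)) k') l with h6 | h6
        · refine hH (i + 1) k' h2 h3 ?_ h6
          intro i' hi'
          rcases Nat.eq_zero_or_pos i' with h7 | h7
          · subst h7
            rw [add_zero, Nat.sub_zero, h2]
            exact hmk
          · obtain ⟨i'', rfl⟩ : ∃ i'', i' = i'' + 1 := ⟨i' - 1, by omega⟩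
            have h8 := h4 i'' (by omega)
            rwa [show i + 1 - (i'' + 1) = i - i'' by omega]
        · have h7 : l + (i + 1) - up (l + (i + 1)) k' = l := by omega
          have h8 := hup (l + (i + 1)) k' h3
          have h9 : up (l + (i + 1)) k' = i + 1 := by omega
          rw [h7, h9, h2]
          exact hM

/-- the variance of level `l` over all the roots -/
noncomputable def tvar (f : ℕ → ℕ → ℝ) (K0 l : ℕ) : ℝ :=
  ∑ k ∈ Finset.range (K0 * 2 ^ l), (1 / 2 : ℝ) ^ l * f l k ^ 2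

theorem tree_var_succ (f : ℕ → ℕ → ℝ)
    (hf : ∀ l k, f l k = (f (l + 1) (2 * k) + f (l + 1) (2 * k + 1)) / 2) (K0 l : ℕ) :
    ∑ k ∈ Finset.range (K0 * 2 ^ (l + 1)), (1 / 2 : ℝ) ^ (l + 1) *
      (f (l + 1) k - f l (k / 2)) ^ 2 = tvar f K0 (l + 1) - tvar f K0 l := by
  unfold tvar
  have e : K0 * 2 ^ (l + 1) = 2 * (K0 * 2 ^ l) := by ring
  rw [e, tree_sum_two, tree_sum_two, ← Finset.sum_sub_distrib]
  refine Finset.sum_congr rfl fun k _ => ?_
  have h1 : 2 * k / 2 = k := by omega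
  have h2 : (2 * k + 1) / 2 = k := by omega
  rw [h1, h2, hf l k, pow_succ]
  ring

theorem tree_var_le (f q : ℕ → ℕ → ℝ)
    (hq : ∀ l k, q l k = (q (l + 1) (2 * k) + q (l + 1) (2 * k + 1)) / 2)
    (hfq : ∀ l k, f l k ^ 2 ≤ q l k) (K0 l : ℕ) :
    tvar f K0 l ≤ ∑ k ∈ Finset.range K0, q 0 k := by
  have h1 : ∀ l : ℕ, ∑ k ∈ Finset.range (K0 * 2 ^ l), (1 / 2 : ℝ) ^ l * q l k =
      ∑ k ∈ Finset.range K0, q 0 k := by
    intro l
    induction l with
    | zero => simp
    | succ l ih =>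
      rw [← ih, show K0 * 2 ^ (l + 1) = 2 * (K0 * 2 ^ l) by ring, tree_sum_two]
      refine Finset.sum_congr rfl fun k _ => ?_
      rw [hq l k, pow_succ]
      ring
  rw [← h1 l]
  exact Finset.sum_le_sum fun k _ => mul_le_mul_of_nonneg_left (hfq l k) (by positivity)

theorem tree_sum_pow (g : ℕ → ℝ) (s N : ℕ) :
    ∑ k ∈ Finset.range (N * 2 ^ s), g (k / 2 ^ s) = 2 ^ s * ∑ k ∈ Finset.range N, g k := by
  induction s generalizing N with
  | zero => simp
  | succ s ih =>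
    rw [show N * 2 ^ (s + 1) = 2 * (N * 2 ^ s) by ring, tree_sum_two]
    have h1 : ∀ k : ℕ, g (2 * k / 2 ^ (s + 1)) + g ((2 * k + 1) / 2 ^ (s + 1)) =
        2 * g (k / 2 ^ s) := by
      intro k
      have h2 : 2 * k / 2 ^ (s + 1) = k / 2 ^ s := by
        rw [pow_succ', ← Nat.div_div_eq_div_mul]
        congr 1
        omega
      have h3 : (2 * k + 1) / 2 ^ (s + 1) = k / 2 ^ s := by
        rw [pow_succ', ← Nat.div_div_eq_div_mul]
        congr 1
        omega
      rw [h2, h3]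
      ring
    rw [Finset.sum_congr rfl fun k _ => h1 k, ← Finset.mul_sum, ih]
    ring

/-- the jump at the `s`-th ancestor -/
noncomputable def tdl (f : ℕ → ℕ → ℝ) (l k s : ℕ) : ℝ :=
  if s + 1 ≤ l then f (l - s) (k / 2 ^ s) - f (l - (s + 1)) (k / 2 ^ (s + 1)) else 0

theorem tree_dl_sum (f : ℕ → ℕ → ℝ)
    (hf : ∀ l k, f l k = (f (l + 1) (2 * k) + f (l + 1) (2 * k + 1)) / 2) (K0 l s : ℕ) :
    ∑ k ∈ Finset.range (K0 * 2 ^ l), (1 / 2 : ℝ) ^ l * tdl f l k s ^ 2 =
      if s + 1 ≤ l then tvar f K0 (l - s) - tvar f K0 (l - (s + 1)) else 0 := by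
  unfold tdl
  split_ifs with h
  · obtain ⟨m, rfl⟩ : ∃ m, l = m + 1 + s := ⟨l - (s + 1), by omega⟩
    have e1 : m + 1 + s - s = m + 1 := by omega
    have e2 : m + 1 + s - (s + 1) = m := by omega
    rw [e1, e2, ← tree_var_succ f hf]
    have h1 := tree_sum_pow (fun k => (1 / 2 : ℝ) ^ (m + 1 + s) *
      (f (m + 1) k - f m (k / 2)) ^ 2) s (K0 * 2 ^ (m + 1))
    have h2 : K0 * 2 ^ (m + 1) * 2 ^ s = K0 * 2 ^ (m + 1 + s) := by ring
    rw [h2] at h1
    have h3 : ∀ k : ℕ, k / 2 ^ s / 2 = k / 2 ^ (s + 1) := by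
      intro k
      rw [Nat.div_div_eq_div_mul, pow_succ]
    simp only [h3] at h1
    rw [h1, Finset.mul_sum]
    refine Finset.sum_congr rfl fun k _ => ?_
    have h4 : (2 : ℝ) ^ s * (1 / 2 : ℝ) ^ (m + 1 + s) = (1 / 2 : ℝ) ^ (m + 1) := by
      rw [pow_add (1 / 2 : ℝ) (m + 1) s]
      have h5 : (2 : ℝ) ^ s * (1 / 2 : ℝ) ^ s = 1 := by
        rw [← mul_pow]; norm_num
      calc (2 : ℝ) ^ s * ((1 / 2 : ℝ) ^ (m + 1) * (1 / 2 : ℝ) ^ s)
          = (1 / 2 : ℝ) ^ (m + 1) * ((2 : ℝ) ^ s * (1 / 2 : ℝ) ^ s) := by ring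
        _ = _ := by rw [h5, mul_one]
    rw [← mul_assoc, h4]
  · simp

theorem tree_dl_total (f q : ℕ → ℕ → ℝ)
    (hf : ∀ l k, f l k = (f (l + 1) (2 * k) + f (l + 1) (2 * k + 1)) / 2)
    (hq : ∀ l k, q l k = (q (l + 1) (2 * k) + q (l + 1) (2 * k + 1)) / 2)
    (hfq : ∀ l k, f l k ^ 2 ≤ q l k) (K0 L s : ℕ) :
    ∑ l ∈ Finset.range L, ∑ k ∈ Finset.range (K0 * 2 ^ l), (1 / 2 : ℝ) ^ l * tdl f l k s ^ 2 ≤
      ∑ k ∈ Finset.range K0, (q 0 k - f 0 k ^ 2) := by
  have h0 : tvar f K0 0 = ∑ k ∈ Finset.range K0, f 0 k ^ 2 := by simp [tvar]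
  have hnn : 0 ≤ ∑ k ∈ Finset.range K0, (q 0 k - f 0 k ^ 2) :=
    Finset.sum_nonneg fun k _ => by linarith [hfq 0 k]
  have h1 : ∀ L : ℕ, ∑ l ∈ Finset.range L,
      (if s + 1 ≤ l then tvar f K0 (l - s) - tvar f K0 (l - (s + 1)) else 0) =
      if s + 1 ≤ L then tvar f K0 (L - (s + 1)) - tvar f K0 0 else 0 := by
    intro L
    induction L with
    | zero => simp
    | succ L ih =>
      rw [Finset.sum_range_succ, ih]
      rcases Nat.lt_or_ge L (s + 1) with h | h
      · rw [if_neg (by omega), if_neg (by omega)]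
        rcases Nat.lt_or_ge (L + 1) (s + 1) with h2 | h2
        · rw [if_neg (by omega), add_zero]
        · rw [if_pos h2]
          have h3 : L + 1 - (s + 1) = 0 := by omega
          rw [h3, sub_self, add_zero]
      · rw [if_pos h, if_pos h, if_pos (by omega)]
        have h3 : L + 1 - (s + 1) = L - s := by omega
        rw [h3]
        ring
  rw [Finset.sum_congr rfl fun l _ => tree_dl_sum f hf K0 l s, h1]
  split_ifs with h
  · rw [h0, Finset.sum_sub_distrib]
    linarith [tree_var_le f q hq hfq K0 (L - (s + 1))]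
  · exact hnn

theorem tree_dl_abs (f : ℕ → ℕ → ℝ) (l k : ℕ) : ∀ s, s ≤ l →
    |f (l - s) (k / 2 ^ s) - f l k| ≤ ∑ i ∈ Finset.range s, |tdl f l k i| := by
  intro s
  induction s with
  | zero => intro _; simp
  | succ s ih =>
    intro h
    rw [Finset.sum_range_succ]
    have h1 := ih (by omega)
    have h2 : tdl f l k s = f (l - s) (k / 2 ^ s) - f (l - (s + 1)) (k / 2 ^ (s + 1)) := by
      unfold tdl
      rw [if_pos h]
    have h3 : f (l - (s + 1)) (k / 2 ^ (s + 1)) - f l k =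
      (f (l - s) (k / 2 ^ s) - f l k) - tdl f l k s := by rw [h2]; ring
    rw [h3]
    refine (abs_sub _ _).trans ?_
    linarith

/-- **(L2)** on a forest with 5-level look-back -/
theorem tree (f q : ℕ → ℕ → ℝ)
    (hf : ∀ l k, f l k = (f (l + 1) (2 * k) + f (l + 1) (2 * k + 1)) / 2)
    (hq : ∀ l k, q l k = (q (l + 1) (2 * k) + q (l + 1) (2 * k + 1)) / 2)
    (hfq : ∀ l k, f l k ^ 2 ≤ q l k) (K0 : ℕ) (B : ℝ)
    (hB : ∑ k ∈ Finset.range K0, (q 0 k - f 0 k ^ 2) ≤ B)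
    (mk : ℕ → ℕ → Prop) [∀ l k, Decidable (mk l k)] (up : ℕ → ℕ → ℕ)
    (hup : ∀ l k, mk l k → up l k ≤ l)
    (hnest : ∀ l k l', mk l k → l' < l → mk l' (k / 2 ^ (l - l')) → l' + up l k ≤ l + 5)
    (L : ℕ) :
    ∑ l ∈ Finset.range (L + 1), ∑ k ∈ Finset.range (K0 * 2 ^ l),
      (if mk l k then (1 / 2 : ℝ) ^ l * (f l k - f (l - up l k) (k / 2 ^ (up l k))) ^ 2 else 0) ≤
      216 * B := by
  obtain ⟨Mx, hMx⟩ : ∃ Mx : ℕ → ℕ → ℝ, Mx = fun l k => ∑ i ∈ Finset.range 5, |tdl f l k i| :=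
    ⟨_, rfl⟩
  have hMx0 : ∀ l k, 0 ≤ Mx l k := by
    intro l k
    rw [hMx]
    exact Finset.sum_nonneg fun i _ => abs_nonneg _
  have hMx1 : ∀ l k s, s ≤ 5 → s ≤ l → |f (l - s) (k / 2 ^ s) - f l k| ≤ Mx l k := by
    intro l k s h1 h2
    refine (tree_dl_abs f l k s h2).trans ?_
    rw [hMx]
    exact Finset.sum_le_sum_of_subset_of_nonneg (Finset.range_subset_range.2 h1)
      fun i _ _ => abs_nonneg _
  have h1 := tree_tsm (fun l k => if mk l k then (1 / 2 : ℝ) ^ l *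
        (f l k - f (l - up l k) (k / 2 ^ (up l k))) ^ 2 else 0) (L + 1) 0 K0
  simp only [zero_add] at h1
  rw [h1]
  have h2 : ∀ k ∈ Finset.range K0, tsm (fun l k => if mk l k then (1 / 2 : ℝ) ^ l *
        (f l k - f (l - up l k) (k / 2 ^ (up l k))) ^ 2 else 0) (L + 1) 0 k ≤
      16 * (q 0 k - f 0 k ^ 2) +
        tsm (fun l k => 8 * ((1 / 2 : ℝ) ^ l * Mx l k ^ 2)) (L + 1) 0 k := by
    intro k _
    have h3 := tree_bell f q hf hq hfq mk up hup hnest Mx hMx0 hMx1 (L + 1) 0 k (f 0 k) 0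
      (by rw [sub_self, abs_zero]) (fun i k' _ _ _ h => absurd h (Nat.not_lt_zero _))
    refine h3.trans ?_
    have h4 : tsm (fun l k => if mk l k then 8 * ((1 / 2 : ℝ) ^ l * Mx l k ^ 2) else 0)
        (L + 1) 0 k ≤ tsm (fun l k => 8 * ((1 / 2 : ℝ) ^ l * Mx l k ^ 2)) (L + 1) 0 k := by
      refine tree_tsm_mono (fun l k => ?_) _ _ _
      have h5 : 0 ≤ 8 * ((1 / 2 : ℝ) ^ l * Mx l k ^ 2) := by positivity
      split_ifs
      · exact le_refl _
      · exact h5
    rw [sub_self, abs_zero, pow_zero]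
    have h6 : 4 * (1 * (4 * (q 0 k - 2 * f 0 k * f 0 k + f 0 k ^ 2) + 2 * (0 : ℝ) ^ 2
        - 4 * 0 * 0)) = 16 * (q 0 k - f 0 k ^ 2) := by ring
    rw [h6]
    linarith
  refine (Finset.sum_le_sum h2).trans ?_
  rw [Finset.sum_add_distrib, ← Finset.mul_sum]
  have h3 := tree_tsm (fun l k => 8 * ((1 / 2 : ℝ) ^ l * Mx l k ^ 2)) (L + 1) 0 K0
  simp only [zero_add] at h3
  rw [← h3]
  have h4 : ∀ l k, 8 * ((1 / 2 : ℝ) ^ l * Mx l k ^ 2) ≤
      40 * ∑ s ∈ Finset.range 5, (1 / 2 : ℝ) ^ l * tdl f l k s ^ 2 := by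
    intro l k
    have h5 : Mx l k ^ 2 ≤ 5 * ∑ s ∈ Finset.range 5, tdl f l k s ^ 2 := by
      rw [hMx]
      have h6 := sq_sum_le_card_mul_sum_sq (s := Finset.range 5) (f := fun i => |tdl f l k i|)
      simp only [Finset.card_range, sq_abs] at h6
      exact_mod_cast h6
    rw [← Finset.mul_sum]
    have h7 : 0 ≤ (1 / 2 : ℝ) ^ l := by positivity
    have h8 := mul_le_mul_of_nonneg_left h5 h7
    linarith
  have h5 : ∑ l ∈ Finset.range (L + 1), ∑ k ∈ Finset.range (K0 * 2 ^ l),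
      8 * ((1 / 2 : ℝ) ^ l * Mx l k ^ 2) ≤
      40 * ∑ s ∈ Finset.range 5, ∑ l ∈ Finset.range (L + 1), ∑ k ∈ Finset.range (K0 * 2 ^ l),
        (1 / 2 : ℝ) ^ l * tdl f l k s ^ 2 := by
    calc _ ≤ ∑ l ∈ Finset.range (L + 1), ∑ k ∈ Finset.range (K0 * 2 ^ l),
        40 * ∑ s ∈ Finset.range 5, (1 / 2 : ℝ) ^ l * tdl f l k s ^ 2 :=
          Finset.sum_le_sum fun l _ => Finset.sum_le_sum fun k _ => h4 l k
      _ = _ := by
        rw [Finset.mul_sum]
        simp only [Finset.mul_sum]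
        rw [Finset.sum_comm' (s := Finset.range 5) (t := fun _ => Finset.range (L + 1))
          (t' := Finset.range (L + 1)) (s' := fun _ => Finset.range 5)
          (fun x y => by tauto)]
        refine Finset.sum_congr rfl fun l _ => ?_
        rw [Finset.sum_comm]
  have h6 : ∑ s ∈ Finset.range 5, ∑ l ∈ Finset.range (L + 1), ∑ k ∈ Finset.range (K0 * 2 ^ l),
        (1 / 2 : ℝ) ^ l * tdl f l k s ^ 2 ≤ ∑ s ∈ Finset.range 5, B :=
    Finset.sum_le_sum fun s _ => (tree_dl_total f q hf hq hfq K0 (L + 1) s).trans hB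
  rw [Finset.sum_const, Finset.card_range, nsmul_eq_mul] at h6
  push_cast at h6
  linarith

end Pool.Agent.H5.GSC
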