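import Mathlib

/-!
# MP_20ddb5_an, note 1871 section 3: (L2), Doob's inequality between consecutive marks, and Bessel

Dyadic cells `(k, j)` of level `k : ℕ`, index `j : ℤ`, length `2 ^ (-k)`; the children of `(k, j)` are
`(k + 1, 2 * j)` and `(k + 1, 2 * j + 1)`; `anc k j l` is the index of the ancestor of level `l ≤ k`.
`b k j` is the mean of a function on the cell `(k, j)`; only
`b k j = (b (k + 1) (2 * j) + b (k + 1) (2 * j + 1)) / 2` and `|b k j| ≤ η` are used.
-/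

set_option autoImplicit false

namespace Pool.Agent.H5.GSC

/-- index of the ancestor of level `l` of the dyadic cell `(k, j)` -/
def anc (k : ℕ) (j : ℤ) (l : ℕ) : ℤ := j / 2 ^ (k - l)

theorem anc_self (k : ℕ) (j : ℤ) : anc k j k = j := by simp [anc]

theorem anc_half {k l : ℕ} (j : ℤ) (h : l + 1 ≤ k) : anc k j (l + 1) / 2 = anc k j l := by
  unfold anc
  have h1 : k - l = (k - (l + 1)) + 1 := by omega
  rw [h1, pow_succ, Int.ediv_ediv_of_nonneg (by positivity)]

theorem anc_child {k l : ℕ} {j J : ℤ} (h : l + 1 ≤ k) (h2 : anc k j l = J) :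
    anc k j (l + 1) = 2 * J ∨ anc k j (l + 1) = 2 * J + 1 := by
  have := anc_half j h
  rw [h2] at this
  omega

/-- the algebraic step -/
theorem bell_mono {η R x M M' : ℝ} (h1 : |x - R| ≤ M') (h2 : M' = max M |x - R|) :
    4 * (η ^ 2 - 2 * R * x + R ^ 2) + 2 * M' ^ 2 - 4 * M' * |x - R| ≤
      4 * (η ^ 2 - 2 * R * x + R ^ 2) + 2 * M ^ 2 - 4 * M * |x - R| := by
  rcases le_total M |x - R| with h | h
  · rw [max_eq_right h] at h2
    subst h2
    nlinarith [sq_nonneg (M - |x - R|)]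
  · rw [max_eq_left h] at h2
    subst h2
    exact le_refl _

theorem bell_aux {ι : Type*} [DecidableEq ι] (b : ℕ → ℤ → ℝ) (η : ℝ)
    (hb : ∀ k j, b k j = (b (k + 1) (2 * j) + b (k + 1) (2 * j + 1)) / 2)
    (hη : ∀ k j, |b k j| ≤ η) (n : ℕ) (k : ι → ℕ) (j : ι → ℤ) (r : ι → ℕ) (hr : ∀ i, r i ≤ k i) :
    ∀ (d K : ℕ) (J : ℤ) (R M : ℝ) (I : Finset ι), K + d = n →
    (∀ i ∈ I, K ≤ k i ∧ anc (k i) (j i) K = J ∧ k i < n) →
    (∀ i ∈ I, ∀ i' ∈ I, k i = k i' → j i = j i' → i = i') →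
    (∀ i ∈ I, ∀ i' ∈ I, k i < k i' → anc (k i') (j i') (k i) = j i → k i ≤ r i') →
    (∀ i ∈ I, r i < K → |b (r i) (anc (k i) (j i) (r i)) - R| ≤ M) →
    |b K J - R| ≤ M →
    ∑ i ∈ I, (2 : ℝ)⁻¹ ^ (k i) * (b (k i) (j i) - b (r i) (anc (k i) (j i) (r i))) ^ 2 ≤
      4 * ((2 : ℝ)⁻¹ ^ K * (4 * (η ^ 2 - 2 * R * b K J + R ^ 2) + 2 * M ^ 2
        - 4 * M * |b K J - R|)) := by
  intro d
  induction d with
  | zero =>
    intro K J R M I hK hI _ _ _ hM
    have hI0 : I = ∅ := by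
      rw [Finset.eq_empty_iff_forall_notMem]
      intro i hi
      have := hI i hi
      omega
    subst hI0
    rw [Finset.sum_empty]
    have h1 : b K J ^ 2 ≤ η ^ 2 := by
      rw [← sq_abs (b K J)]
      exact pow_le_pow_left₀ (abs_nonneg _) (hη K J) 2
    have h2 : (b K J - R) ^ 2 = |b K J - R| ^ 2 := (sq_abs _).symm
    have h3 : 0 ≤ (2 : ℝ)⁻¹ ^ K := by positivity
    have h4 : 0 ≤ 4 * (η ^ 2 - 2 * R * b K J + R ^ 2) + 2 * M ^ 2 - 4 * M * |b K J - R| := by
      nlinarith [sq_nonneg (2 * |b K J - R| - M), sq_nonneg M]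
    positivity
  | succ d ih =>
    intro K J R M I hK hI hinj hnest hH hM
    have hM0 : 0 ≤ M := le_trans (abs_nonneg _) hM
    -- the sum over the indices strictly below, with a state on the children
    have key : ∀ (R' M' : ℝ) (I' : Finset ι), 0 ≤ M' → I' ⊆ I → (∀ i ∈ I', K < k i) →
        (∀ i ∈ I', r i < K + 1 → |b (r i) (anc (k i) (j i) (r i)) - R'| ≤ M') →
        ∑ i ∈ I', (2 : ℝ)⁻¹ ^ (k i) * (b (k i) (j i) - b (r i) (anc (k i) (j i) (r i))) ^ 2 ≤
          4 * ((2 : ℝ)⁻¹ ^ K * (4 * (η ^ 2 - 2 * R' * b K J + R' ^ 2) + 2 * M' ^ 2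
            - 4 * M' * |b K J - R'|)) := by
      intro R' M' I' hM'n hI' hlt hH'
      have hM'0 : ∀ J' : ℤ, 0 ≤ max M' |b (K + 1) J' - R'| := fun J' =>
        le_trans (abs_nonneg _) (le_max_right _ _)
      have part : ∀ J' : ℤ, (J' = 2 * J ∨ J' = 2 * J + 1) →
          ∑ i ∈ I' with anc (k i) (j i) (K + 1) = J',
            (2 : ℝ)⁻¹ ^ (k i) * (b (k i) (j i) - b (r i) (anc (k i) (j i) (r i))) ^ 2 ≤
          4 * ((2 : ℝ)⁻¹ ^ (K + 1) * (4 * (η ^ 2 - 2 * R' * b (K + 1) J' + R' ^ 2) + 2 * M' ^ 2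
            - 4 * M' * |b (K + 1) J' - R'|)) := by
        intro J' _
        have h1 := ih (K + 1) J' R' (max M' |b (K + 1) J' - R'|)
          (I'.filter fun i => anc (k i) (j i) (K + 1) = J') (by omega) ?_ ?_ ?_ ?_
          (le_max_right _ _)
        · refine h1.trans ?_
          have h2 := bell_mono (η := η) (R := R') (x := b (K + 1) J') (M := M')
            (M' := max M' |b (K + 1) J' - R'|) (le_max_right _ _) rfl
          have h3 : 0 ≤ (2 : ℝ)⁻¹ ^ (K + 1) := by positivity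
          nlinarith [mul_le_mul_of_nonneg_left h2 h3]
        · intro i hi
          rw [Finset.mem_filter] at hi
          exact ⟨hlt i hi.1, hi.2, (hI i (hI' hi.1)).2.2⟩
        · intro i hi i' hi'
          rw [Finset.mem_filter] at hi hi'
          exact hinj i (hI' hi.1) i' (hI' hi'.1)
        · intro i hi i' hi'
          rw [Finset.mem_filter] at hi hi'
          exact hnest i (hI' hi.1) i' (hI' hi'.1)
        · intro i hi h4
          rw [Finset.mem_filter] at hi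
          exact (hH' i hi.1 h4).trans (le_max_left _ _)
      have hsplit : ∑ i ∈ I', (2 : ℝ)⁻¹ ^ (k i) *
            (b (k i) (j i) - b (r i) (anc (k i) (j i) (r i))) ^ 2 =
          (∑ i ∈ I' with anc (k i) (j i) (K + 1) = 2 * J,
            (2 : ℝ)⁻¹ ^ (k i) * (b (k i) (j i) - b (r i) (anc (k i) (j i) (r i))) ^ 2) +
          ∑ i ∈ I' with anc (k i) (j i) (K + 1) = 2 * J + 1,
            (2 : ℝ)⁻¹ ^ (k i) * (b (k i) (j i) - b (r i) (anc (k i) (j i) (r i))) ^ 2 := by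
        rw [← Finset.sum_filter_add_sum_filter_not I'
          (fun i => anc (k i) (j i) (K + 1) = 2 * J)]
        congr 1
        refine Finset.sum_congr ?_ fun _ _ => rfl
        ext i
        simp only [Finset.mem_filter]
        constructor
        · rintro ⟨h1, h2⟩
          refine ⟨h1, ?_⟩
          rcases anc_child (hlt i h1) (hI i (hI' h1)).2.1 with h3 | h3
          · exact absurd h3 h2
          · exact h3
        · rintro ⟨h1, h2⟩
          refine ⟨h1, ?_⟩
          omega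
      rw [hsplit]
      have h1 := part (2 * J) (Or.inl rfl)
      have h2 := part (2 * J + 1) (Or.inr rfl)
      refine (add_le_add h1 h2).trans ?_
      have h3 : |b K J - R'| ≤ (|b (K + 1) (2 * J) - R'| + |b (K + 1) (2 * J + 1) - R'|) / 2 := by
        have h4 : b K J - R' = ((b (K + 1) (2 * J) - R') + (b (K + 1) (2 * J + 1) - R')) / 2 := by
          rw [hb K J]; ring
        rw [h4, abs_div, abs_of_pos (by norm_num : (0 : ℝ) < 2)]
        exact div_le_div_of_nonneg_right (abs_add_le _ _) (by norm_num)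
      have h5 : (2 : ℝ)⁻¹ ^ (K + 1) = (2 : ℝ)⁻¹ ^ K / 2 := by rw [pow_succ]; ring
      have h6 : 0 ≤ (2 : ℝ)⁻¹ ^ K := by positivity
      have h7 := hb K J
      rw [h5]
      have h8 : 0 ≤ M' * ((|b (K + 1) (2 * J) - R'| + |b (K + 1) (2 * J + 1) - R'|) / 2
          - |b K J - R'|) := mul_nonneg hM'n (by linarith)
      have h9 := mul_nonneg h6 h8
      have h10 : 4 * ((2 : ℝ)⁻¹ ^ K / 2 * (4 * (η ^ 2 - 2 * R' * b (K + 1) (2 * J) + R' ^ 2)
            + 2 * M' ^ 2 - 4 * M' * |b (K + 1) (2 * J) - R'|)) +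
          4 * ((2 : ℝ)⁻¹ ^ K / 2 * (4 * (η ^ 2 - 2 * R' * b (K + 1) (2 * J + 1) + R' ^ 2)
            + 2 * M' ^ 2 - 4 * M' * |b (K + 1) (2 * J + 1) - R'|)) =
          4 * ((2 : ℝ)⁻¹ ^ K * (4 * (η ^ 2 - 2 * R' * b K J + R' ^ 2) + 2 * M' ^ 2
            - 4 * M' * |b K J - R'|)) - 16 * ((2 : ℝ)⁻¹ ^ K * (M' *
            ((|b (K + 1) (2 * J) - R'| + |b (K + 1) (2 * J + 1) - R'|) / 2 - |b K J - R'|))) := by
        rw [h7]; ring
      rw [h10]
      linarith
    by_cases hex : ∃ i0 ∈ I, k i0 = K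
    · obtain ⟨i0, hi0, hk0⟩ := hex
      have hj0 : j i0 = J := by
        have h1 := (hI i0 hi0).2.1
        rw [← hk0, anc_self] at h1
        exact h1
      have hne : ∀ i ∈ I.erase i0, K < k i := by
        intro i hi
        rw [Finset.mem_erase] at hi
        rcases lt_or_eq_of_le (hI i hi.2).1 with h1 | h1
        · exact h1
        · exfalso
          apply hi.1
          have h2 := (hI i hi.2).2.1
          rw [h1, anc_self] at h2
          exact hinj i hi.2 i0 hi0 (by omega) (by rw [h2, hj0])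
      have h1 := key (b K J) 0 (I.erase i0) le_rfl (Finset.erase_subset _ _) hne ?_
      · rw [← Finset.add_sum_erase I _ hi0]
        have h2 : |b (k i0) (j i0) - b (r i0) (anc (k i0) (j i0) (r i0))| ≤ 2 * M := by
          have h3 : |b (r i0) (anc (k i0) (j i0) (r i0)) - R| ≤ M := by
            rcases lt_or_eq_of_le (hr i0) with h3 | h3
            · exact hH i0 hi0 (by omega)
            · rw [h3, anc_self, hk0, hj0]; exact hM
          have h4 : |b (k i0) (j i0) - R| ≤ M := by rw [hk0, hj0]; exact hM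
          have h6 : b (k i0) (j i0) - b (r i0) (anc (k i0) (j i0) (r i0)) =
            (b (k i0) (j i0) - R) - (b (r i0) (anc (k i0) (j i0) (r i0)) - R) := by ring
          rw [h6]
          refine (abs_sub _ _).trans ?_
          linarith
        have h3 : (b (k i0) (j i0) - b (r i0) (anc (k i0) (j i0) (r i0))) ^ 2 ≤ 4 * M ^ 2 := by
          rw [← sq_abs]
          nlinarith [abs_nonneg (b (k i0) (j i0) - b (r i0) (anc (k i0) (j i0) (r i0)))]
        have h4 : 0 ≤ (2 : ℝ)⁻¹ ^ K := by positivity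
        have h5 : (2 : ℝ)⁻¹ ^ (k i0) *
            (b (k i0) (j i0) - b (r i0) (anc (k i0) (j i0) (r i0))) ^ 2 ≤
            (2 : ℝ)⁻¹ ^ K * (4 * M ^ 2) := by
          rw [hk0] at h3 ⊢
          exact mul_le_mul_of_nonneg_left h3 h4
        refine (add_le_add h5 h1).trans ?_
        have h6 : (b K J - R) ^ 2 = |b K J - R| ^ 2 := (sq_abs _).symm
        have h7 : 0 ≤ (2 * |b K J - R| - M) ^ 2 := sq_nonneg _
        have h8 := mul_nonneg h4 h7
        have h9 : 4 * ((2 : ℝ)⁻¹ ^ K * (4 * (η ^ 2 - 2 * R * b K J + R ^ 2) + 2 * M ^ 2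
            - 4 * M * |b K J - R|)) =
            4 * ((2 : ℝ)⁻¹ ^ K * (4 * (η ^ 2 - b K J ^ 2) + 4 * (b K J - R) ^ 2 + 2 * M ^ 2
            - 4 * M * |b K J - R|)) := by ring
        rw [h9, h6, sub_self, abs_zero]
        nlinarith
      · intro i hi hlt
        have hi' := Finset.mem_of_mem_erase hi
        have h2 : K ≤ r i := by
          have h3 := hnest i0 hi0 i hi' (by rw [hk0]; exact hne i hi)
            (by rw [hk0, (hI i hi').2.1, hj0])
          omega
        have h4 : r i = K := by omega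
        rw [h4, (hI i hi').2.1, sub_self, abs_zero]
    · push Not at hex
      have hlt : ∀ i ∈ I, K < k i := fun i hi =>
        lt_of_le_of_ne (hI i hi).1 (Ne.symm (hex i hi))
      refine key R M I hM0 (Finset.Subset.refl _) hlt ?_
      intro i hi h1
      rcases Nat.lt_or_ge (r i) K with h2 | h2
      · exact hH i hi h2
      · have h3 : r i = K := by omega
        rw [h3, (hI i hi).2.1]
        exact hM

/-- **(L2)** for one root `(K, J)`: `(k i, j i)` distinct cells inside the root, `r i ≤ k i` the level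
of a second cell containing `(k i, j i)` and contained in all the marks `(k i', j i')` strictly
containing `(k i, j i)`. -/
theorem bellman_root {ι : Type*} [DecidableEq ι] (b : ℕ → ℤ → ℝ) (η : ℝ)
    (hb : ∀ k j, b k j = (b (k + 1) (2 * j) + b (k + 1) (2 * j + 1)) / 2)
    (hη : ∀ k j, |b k j| ≤ η) (k : ι → ℕ) (j : ι → ℤ) (r : ι → ℕ) (hr : ∀ i, r i ≤ k i)
    (K : ℕ) (J : ℤ) (I : Finset ι)
    (hI : ∀ i ∈ I, K ≤ r i ∧ anc (k i) (j i) K = J)
    (hinj : ∀ i ∈ I, ∀ i' ∈ I, k i = k i' → j i = j i' → i = i')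
    (hnest : ∀ i ∈ I, ∀ i' ∈ I, k i < k i' → anc (k i') (j i') (k i) = j i → k i ≤ r i') :
    ∑ i ∈ I, (2 : ℝ)⁻¹ ^ (k i) * (b (k i) (j i) - b (r i) (anc (k i) (j i) (r i))) ^ 2 ≤
      16 * η ^ 2 * (2 : ℝ)⁻¹ ^ K := by
  obtain ⟨n, hn⟩ : ∃ n : ℕ, ∀ i ∈ I, k i < n :=
    ⟨I.sup k + 1, fun i hi => Nat.lt_succ_of_le (Finset.le_sup hi)⟩
  have h0 := bell_aux b η hb hη (max n K) k j r hr (max n K - K) K J (b K J) 0 I
    (by have := le_max_right n K; omega)
    (fun i hi => ⟨(hI i hi).1.trans (hr i), (hI i hi).2,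
      lt_of_lt_of_le (hn i hi) (le_max_left _ _)⟩) hinj hnest
    (fun i hi h => by have := (hI i hi).1; omega) (by rw [sub_self, abs_zero])
  refine h0.trans ?_
  rw [sub_self, abs_zero]
  have h1 : 0 ≤ (2 : ℝ)⁻¹ ^ K := by positivity
  nlinarith [mul_nonneg h1 (sq_nonneg (b K J))]

/-- **(L2)** for finitely many roots `(K, J)`, `J ∈ F` -/
theorem bellman {ι : Type*} [DecidableEq ι] (b : ℕ → ℤ → ℝ) (η : ℝ)
    (hb : ∀ k j, b k j = (b (k + 1) (2 * j) + b (k + 1) (2 * j + 1)) / 2)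
    (hη : ∀ k j, |b k j| ≤ η) (k : ι → ℕ) (j : ι → ℤ) (r : ι → ℕ) (hr : ∀ i, r i ≤ k i)
    (K : ℕ) (F : Finset ℤ) (I : Finset ι)
    (hI : ∀ i ∈ I, K ≤ r i ∧ anc (k i) (j i) K ∈ F)
    (hinj : ∀ i ∈ I, ∀ i' ∈ I, k i = k i' → j i = j i' → i = i')
    (hnest : ∀ i ∈ I, ∀ i' ∈ I, k i < k i' → anc (k i') (j i') (k i) = j i → k i ≤ r i') :
    ∑ i ∈ I, (2 : ℝ)⁻¹ ^ (k i) * (b (k i) (j i) - b (r i) (anc (k i) (j i) (r i))) ^ 2 ≤
      F.card * (16 * η ^ 2 * (2 : ℝ)⁻¹ ^ K) := by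
  rw [← Finset.sum_fiberwise_of_maps_to (fun i hi => (hI i hi).2)]
  rw [← nsmul_eq_mul]
  refine Finset.sum_le_card_nsmul _ _ _ ?_
  intro J _
  refine bellman_root b η hb hη k j r hr K J _ ?_ ?_ ?_
  · intro i hi
    rw [Finset.mem_filter] at hi
    exact ⟨(hI i hi.1).1, hi.2⟩
  · intro i hi i' hi'
    rw [Finset.mem_filter] at hi hi'
    exact hinj i hi.1 i' hi'.1
  · intro i hi i' hi'
    rw [Finset.mem_filter] at hi hi'
    exact hnest i hi.1 i' hi'.1

end Pool.Agent.H5.GSC
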